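import Pool.Agent.Y247.BL.Stm

set_option autoImplicit false

open Polynomial Filter Topology

namespace Pool.Agent.Y308.BL
open Pool.Agent.Y247.BL

/-! ### the maximum modulus -/

lemma exists_max (f : ℂ[X]) {r : ℝ} (hr : 0 ≤ r) : ∃ ζ : ℂ, ‖ζ‖ = r ∧ MM f r = ‖f.eval ζ‖ ∧
    ∀ z : ℂ, ‖z‖ = r → ‖f.eval z‖ ≤ ‖f.eval ζ‖ := by
  have hne : (Metric.sphere (0:ℂ) r).Nonempty := NormedSpace.sphere_nonempty.2 hr
  obtain ⟨ζ, hζ, hmax⟩ := (isCompact_sphere (0:ℂ) r).exists_isMaxOn hne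
    (f := fun z : ℂ => ‖f.eval z‖) (f.continuous.norm).continuousOn
  have hζ' : ‖ζ‖ = r := by simpa using hζ
  have hm : ∀ z : ℂ, ‖z‖ = r → ‖f.eval z‖ ≤ ‖f.eval ζ‖ := fun z hz => hmax (by simpa using hz)
  refine ⟨ζ, hζ', ?_, hm⟩
  refine IsGreatest.csSup_eq ⟨⟨ζ, hζ, rfl⟩, ?_⟩
  rintro _ ⟨z, hz, rfl⟩
  exact hm z (by simpa using hz)

lemma le_MM (f : ℂ[X]) {r : ℝ} (hr : 0 ≤ r) {z : ℂ} (hz : ‖z‖ = r) : ‖f.eval z‖ ≤ MM f r := by
  obtain ⟨ζ, -, h1, h2⟩ := exists_max f hr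
  rw [h1]
  exact h2 z hz

/-- maximum principle -/
lemma le_MM_ball (f : ℂ[X]) {r : ℝ} (hr : 0 < r) {z : ℂ} (hz : ‖z‖ ≤ r) : ‖f.eval z‖ ≤ MM f r := by
  refine Complex.norm_le_of_forall_mem_frontier_norm_le (f := fun z => f.eval z)
    (U := Metric.ball (0:ℂ) r) Metric.isBounded_ball f.differentiable.diffContOnCl (fun w hw => ?_) ?_
  · rw [frontier_ball _ hr.ne'] at hw
    exact le_MM f hr.le (by simpa using hw)
  · rw [closure_ball _ hr.ne']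
    simpa using hz

lemma poly_bound (q : ℂ[X]) : ∃ C : ℝ, 0 ≤ C ∧ ∀ z : ℂ, ‖z‖ ≤ 1 → ‖q.eval z‖ ≤ C := by
  obtain ⟨C, hC⟩ := (isCompact_closedBall (0:ℂ) 1).exists_bound_of_continuousOn
    (f := fun z => q.eval z) q.continuous.continuousOn
  exact ⟨max C 0, le_max_right _ _, fun z hz => (hC z (by simpa using hz)).trans (le_max_left _ _)⟩

lemma decomp (f : ℂ[X]) (z : ℂ) :
    f.eval z = f.coeff 0 + f.coeff 1 * z + z ^ 2 * (f.divX.divX).eval z := by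
  have h1 := congrArg (fun p => p.eval z) (divX_mul_X_add f)
  have h2 := congrArg (fun p => p.eval z) (divX_mul_X_add f.divX)
  simp only [eval_add, eval_mul, eval_X, eval_C, coeff_divX, zero_add] at h1 h2
  rw [← h1, ← h2]
  ring

theorem coeff : StCoeff := by
  intro f g hf0 hf1 ε hε hMM
  obtain ⟨Cf, hCf0, hCf⟩ := poly_bound f.divX.divX
  obtain ⟨Cg, hCg0, hCg⟩ := poly_bound g.divX.divX
  -- upper bounds
  have up : ∀ (p : ℂ[X]) (C : ℝ), (∀ z : ℂ, ‖z‖ ≤ 1 → ‖(p.divX.divX).eval z‖ ≤ C) →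
      ∀ r : ℝ, 0 < r → r < 1 → MM p r ≤ ‖p.coeff 0‖ + ‖p.coeff 1‖ * r + C * r ^ 2 := by
    intro p C hC r hr hr1
    obtain ⟨ζ, h1, h2, -⟩ := exists_max p hr.le
    rw [h2, decomp p ζ]
    have h3 := hC ζ (by rw [h1]; exact hr1.le)
    calc ‖p.coeff 0 + p.coeff 1 * ζ + ζ ^ 2 * (p.divX.divX).eval ζ‖
        ≤ ‖p.coeff 0‖ + ‖p.coeff 1 * ζ‖ + ‖ζ ^ 2 * (p.divX.divX).eval ζ‖ := norm_add₃_le
      _ = ‖p.coeff 0‖ + ‖p.coeff 1‖ * r + r ^ 2 * ‖(p.divX.divX).eval ζ‖ := by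
          rw [norm_mul, norm_mul, norm_pow, h1]
      _ ≤ ‖p.coeff 0‖ + ‖p.coeff 1‖ * r + r ^ 2 * C := by
          have := mul_le_mul_of_nonneg_left h3 (sq_nonneg r)
          linarith
      _ = _ := by ring
  have low0 : ∀ (p : ℂ[X]) (r : ℝ), 0 < r → ‖p.coeff 0‖ ≤ MM p r := by
    intro p r hr
    have := le_MM_ball p hr (z := 0) (by simpa using hr.le)
    rwa [← coeff_zero_eq_eval_zero] at this
  have hle : ∀ (a b c : ℝ), 0 ≤ c → (∀ r : ℝ, 0 < r → r < 1 → r < ε → a ≤ b + c * r) → a ≤ b := by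
    intro a b c hc h
    refine le_of_forall_pos_le_add (fun η hη => ?_)
    set r : ℝ := min (min (1 / 2) (ε / 2)) (η / (c + 1)) with hr
    have hr0 : 0 < r := lt_min (lt_min (by norm_num) (by linarith)) (by positivity)
    have h1 := h r hr0 (by
      have : r ≤ 1 / 2 := (min_le_left _ _).trans (min_le_left _ _)
      linarith) (by
      have : r ≤ ε / 2 := (min_le_left _ _).trans (min_le_right _ _)
      linarith)
    have h2 : r ≤ η / (c + 1) := min_le_right _ _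
    have h3 : r * (c + 1) ≤ η := by rwa [le_div_iff₀ (by linarith)] at h2
    nlinarith
  have hab : ‖g.coeff 0‖ = ‖f.coeff 0‖ := by
    apply le_antisymm
    · refine hle _ _ (‖f.coeff 1‖ + Cf) (by positivity) (fun r h1 h2 h3 => ?_)
      have h4 := low0 g r h1
      rw [← hMM r h1 h3] at h4
      have h5 := up f Cf hCf r h1 h2
      have h6 : Cf * r ^ 2 ≤ Cf * r := mul_le_mul_of_nonneg_left (by nlinarith) hCf0
      linarith
    · refine hle _ _ (‖g.coeff 1‖ + Cg) (by positivity) (fun r h1 h2 h3 => ?_)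
      have h4 := low0 f r h1
      rw [hMM r h1 h3] at h4
      have h5 := up g Cg hCg r h1 h2
      have h6 : Cg * r ^ 2 ≤ Cg * r := mul_le_mul_of_nonneg_left (by nlinarith) hCg0
      linarith
  have hf0' : 0 < ‖f.coeff 0‖ := norm_pos_iff.2 hf0
  have hf1' : 0 < ‖f.coeff 1‖ := norm_pos_iff.2 hf1
  refine ⟨fun h => ?_, fun h => ?_⟩
  · rw [h, norm_zero] at hab
    linarith
  · have h1 : ‖f.coeff 1‖ ≤ 0 := by
      refine hle _ _ (Cf + Cg) (by positivity) (fun r h1 h2 h3 => ?_)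
      -- the lower bound of `MM f`
      set t : ℝ := r / (‖f.coeff 0‖ * ‖f.coeff 1‖) with ht
      have ht0 : 0 ≤ t := by positivity
      set z : ℂ := (t : ℂ) * (f.coeff 0 * (starRingEnd ℂ) (f.coeff 1)) with hz
      have hzn : ‖z‖ = r := by
        rw [hz, norm_mul, norm_mul, RCLike.norm_conj, Complex.norm_real,
          Real.norm_of_nonneg ht0, ht]
        field_simp
      have h4 : f.coeff 0 + f.coeff 1 * z =
          f.coeff 0 * ((1 + t * ‖f.coeff 1‖ ^ 2 : ℝ) : ℂ) := by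
        rw [hz]
        have : f.coeff 1 * (starRingEnd ℂ) (f.coeff 1) = ((‖f.coeff 1‖ ^ 2 : ℝ) : ℂ) := by
          rw [Complex.mul_conj, Complex.normSq_eq_norm_sq]
        calc f.coeff 0 + f.coeff 1 * (t * (f.coeff 0 * (starRingEnd ℂ) (f.coeff 1)))
            = f.coeff 0 * (1 + t * (f.coeff 1 * (starRingEnd ℂ) (f.coeff 1))) := by ring
          _ = _ := by rw [this]; push_cast; ring
      have h5 : ‖f.coeff 0 + f.coeff 1 * z‖ = ‖f.coeff 0‖ + ‖f.coeff 1‖ * r := by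
        rw [h4, norm_mul, Complex.norm_real, Real.norm_of_nonneg (by positivity), ht]
        field_simp
      have h6 : ‖f.coeff 0‖ + ‖f.coeff 1‖ * r - Cf * r ^ 2 ≤ MM f r := by
        refine le_trans ?_ (le_MM f h1.le hzn)
        rw [decomp f z]
        have h7 : ‖z ^ 2 * (f.divX.divX).eval z‖ ≤ r ^ 2 * Cf := by
          rw [norm_mul, norm_pow, hzn]
          exact mul_le_mul_of_nonneg_left (hCf z (by rw [hzn]; exact h2.le)) (sq_nonneg r)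
        have h8 := norm_sub_le (f.coeff 0 + f.coeff 1 * z + z ^ 2 * (f.divX.divX).eval z)
          (z ^ 2 * (f.divX.divX).eval z)
        rw [add_sub_cancel_right, h5] at h8
        linarith
      have h9 := up g Cg hCg r h1 h2
      rw [h, norm_zero, zero_mul, hab, ← hMM r h1 h3] at h9
      have h10 : ‖f.coeff 1‖ * r ≤ ((Cf + Cg) * r) * r := by nlinarith
      have h11 := le_of_mul_le_mul_right h10 h1
      linarith
    linarith

/-! ### the inverse germ -/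

lemma inner_eq (a b : ℂ) : inner ℝ a b = ((starRingEnd ℂ) a * b).re := by
  rw [Complex.inner, mul_comm]

/-- at a maximum point of `|f|` on a small circle `z f'/f` is real and nonnegative -/
lemma step1 (f : ℂ[X]) {r : ℝ} (hr : 0 < r) {ζ σ : ℂ} (hζ : ‖ζ‖ = r)
    (hmax : ∀ z : ℂ, ‖z‖ ≤ r → ‖f.eval z‖ ≤ ‖f.eval ζ‖) (hf : f.eval ζ ≠ 0)
    (hσ : ζ * f.derivative.eval ζ = σ * f.eval ζ) : σ.im = 0 ∧ 0 ≤ σ.re := by
  have hfn : 0 < ‖f.eval ζ‖ ^ 2 := by positivity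
  have hconj : (starRingEnd ℂ) (f.eval ζ) * f.eval ζ = ((‖f.eval ζ‖ ^ 2 : ℝ) : ℂ) := by
    rw [mul_comm, Complex.mul_conj, Complex.normSq_eq_norm_sq]
  constructor
  · -- angular derivative
    have h1 : HasDerivAt (fun θ : ℝ => ζ * Complex.exp ((θ : ℂ) * Complex.I)) (ζ * Complex.I) 0 := by
      have h2 : HasDerivAt (fun θ : ℝ => (θ : ℂ) * Complex.I) Complex.I 0 := by
        simpa using (Complex.ofRealCLM.hasDerivAt (x := (0:ℝ))).mul_const Complex.I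
      have h3 := (h2.cexp).const_mul ζ
      simpa using h3
    have h2 : HasDerivAt (fun θ : ℝ => f.eval (ζ * Complex.exp ((θ : ℂ) * Complex.I)))
        (f.derivative.eval ζ * (ζ * Complex.I)) 0 := by
      have h3 := f.hasDerivAt (ζ * Complex.exp (((0:ℝ) : ℂ) * Complex.I))
      have h4 := h3.comp (0:ℝ) h1
      have h5 : HasDerivAt (fun θ : ℝ => f.eval (ζ * Complex.exp ((θ : ℂ) * Complex.I)))
        (f.derivative.eval (ζ * Complex.exp (((0:ℝ) : ℂ) * Complex.I)) * (ζ * Complex.I)) 0 := h4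
      simpa using h5
    have h3 := h2.norm_sq
    have h4 : IsLocalMax ((fun θ : ℝ => ‖f.eval (ζ * Complex.exp ((θ : ℂ) * Complex.I))‖ ^ 2)) 0 := by
      refine Eventually.of_forall (fun θ => ?_)
      simp only [Complex.ofReal_zero, zero_mul, Complex.exp_zero, mul_one]
      refine pow_le_pow_left₀ (norm_nonneg _) (hmax _ ?_) 2
      rw [norm_mul, Complex.norm_exp_ofReal_mul_I, mul_one, hζ]
    have h5 := h4.hasDerivAt_eq_zero h3
    simp only [Complex.ofReal_zero, zero_mul, Complex.exp_zero, mul_one] at h5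
    rw [inner_eq] at h5
    have h6 : (starRingEnd ℂ) (f.eval ζ) * (f.derivative.eval ζ * (ζ * Complex.I)) =
        ((‖f.eval ζ‖ ^ 2 : ℝ) : ℂ) * (σ * Complex.I) := by
      calc _ = (starRingEnd ℂ) (f.eval ζ) * (ζ * f.derivative.eval ζ) * Complex.I := by ring
        _ = ((starRingEnd ℂ) (f.eval ζ) * f.eval ζ) * (σ * Complex.I) := by rw [hσ]; ring
        _ = _ := by rw [hconj]
    rw [h6, Complex.re_ofReal_mul] at h5
    simp only [Complex.mul_re, Complex.I_re, mul_zero, Complex.I_im, mul_one, zero_sub] at h5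
    have h7 : ‖f.eval ζ‖ ^ 2 * σ.im = 0 := by linarith
    exact (mul_eq_zero.1 h7).resolve_left hfn.ne'
  · -- radial derivative
    have h1 : HasDerivAt (fun ρ : ℝ => (ρ : ℂ) * ζ) ζ 1 := by
      simpa using (Complex.ofRealCLM.hasDerivAt (x := (1:ℝ))).mul_const ζ
    have h2 : HasDerivAt (fun ρ : ℝ => f.eval ((ρ : ℂ) * ζ)) (f.derivative.eval ζ * ζ) 1 := by
      have h3 := f.hasDerivAt (((1:ℝ) : ℂ) * ζ)
      have h4 := h3.comp (1:ℝ) h1
      have h5 : HasDerivAt (fun ρ : ℝ => f.eval ((ρ : ℂ) * ζ))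
        (f.derivative.eval (((1:ℝ) : ℂ) * ζ) * ζ) 1 := h4
      simpa using h5
    have h3 := h2.norm_sq
    have h4 := h3.tendsto_slope
    have h5 : Tendsto (slope (fun ρ : ℝ => ‖f.eval ((ρ : ℂ) * ζ)‖ ^ 2) 1) (𝓝[<] 1)
        (𝓝 (2 * inner ℝ (f.eval (((1:ℝ) : ℂ) * ζ)) (f.derivative.eval ζ * ζ))) :=
      h4.mono_left (nhdsWithin_mono _ fun x hx => (ne_of_lt hx))
    have h6 : 0 ≤ 2 * inner ℝ (f.eval (((1:ℝ) : ℂ) * ζ)) (f.derivative.eval ζ * ζ) := by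
      refine ge_of_tendsto h5 ?_
      filter_upwards [Ioo_mem_nhdsLT (show (0:ℝ) < 1 by norm_num)] with ρ hρ
      rw [slope_def_field]
      refine div_nonneg_of_nonpos ?_ (by linarith [hρ.2])
      rw [sub_nonpos]
      refine pow_le_pow_left₀ (norm_nonneg _) ?_ 2
      rw [Complex.ofReal_one, one_mul]
      refine hmax _ ?_
      rw [norm_mul, Complex.norm_real, Real.norm_of_nonneg hρ.1.le, hζ]
      nlinarith [hρ.2]
    rw [Complex.ofReal_one, one_mul, inner_eq] at h6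
    have h7 : (starRingEnd ℂ) (f.eval ζ) * (f.derivative.eval ζ * ζ) =
        ((‖f.eval ζ‖ ^ 2 : ℝ) : ℂ) * σ := by
      calc _ = (starRingEnd ℂ) (f.eval ζ) * (ζ * f.derivative.eval ζ) := by ring
        _ = ((starRingEnd ℂ) (f.eval ζ) * f.eval ζ) * σ := by rw [hσ]; ring
        _ = _ := by rw [hconj]
    rw [h7, Complex.re_ofReal_mul] at h6
    by_contra hneg
    push Not at hneg
    nlinarith [mul_pos hfn (neg_pos.2 hneg)]

section inv
variable {f : ℂ[X]} {Z : ℂ → ℂ}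

lemma deriv_Z (hZ : IsInv f Z) : deriv Z 0 * f.coeff 1 = f.coeff 0 := by
  obtain ⟨h1, h2, h3⟩ := hZ
  have hd : HasDerivAt Z (deriv Z 0) 0 := h1.differentiableAt.hasDerivAt
  have e1 : HasDerivAt (fun s => Z s * f.derivative.eval (Z s))
      (deriv Z 0 * f.derivative.eval (Z 0) + Z 0 * (f.derivative.derivative.eval (Z 0) * deriv Z 0))
      0 := hd.mul ((f.derivative.hasDerivAt (Z 0)).comp 0 hd)
  have e2 : HasDerivAt (fun s => s * f.eval (Z s))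
      (1 * f.eval (Z 0) + 0 * (f.derivative.eval (Z 0) * deriv Z 0)) 0 :=
    (hasDerivAt_id (0:ℂ)).mul ((f.hasDerivAt (Z 0)).comp 0 hd)
  have e3 := (e2.congr_of_eventuallyEq h3).unique e1
  rw [h2] at e3
  have e4 : f.derivative.eval 0 = f.coeff 1 := by
    rw [← coeff_zero_eq_eval_zero, coeff_derivative]
    simp
  have e5 : f.eval 0 = f.coeff 0 := (coeff_zero_eq_eval_zero f).symm
  rw [e4, e5] at e3
  linear_combination -e3

lemma deriv_Z_ne (hf0 : f.coeff 0 ≠ 0) (hZ : IsInv f Z) : deriv Z 0 ≠ 0 := by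
  intro h
  have := deriv_Z hZ
  rw [h, zero_mul] at this
  exact hf0 this.symm

/-- for small `r` the maximum is attained at `Z σ` with small `σ > 0` -/
lemma attained (hf0 : f.coeff 0 ≠ 0) (hZ : IsInv f Z) {s0 : ℝ} (hs0 : 0 < s0) :
    ∃ R : ℝ, 0 < R ∧ ∀ r : ℝ, 0 < r → r < R →
      ∃ σ : ℝ, 0 < σ ∧ σ < s0 ∧ ‖Z σ‖ = r ∧ MM f r = ‖f.eval (Z σ)‖ := by
  have hZ' := hZ
  obtain ⟨h1, h2, h3⟩ := hZ
  have hsd : HasStrictDerivAt Z (deriv Z 0) 0 := h1.hasStrictDerivAt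
  have hmap := hsd.map_nhds_eq (deriv_Z_ne hf0 hZ')
  rw [h2] at hmap
  have hset : {s : ℂ | ‖s‖ < s0 ∧ Z s * f.derivative.eval (Z s) = s * f.eval (Z s)} ∈ 𝓝 (0:ℂ) := by
    have : ∀ᶠ s : ℂ in 𝓝 0, ‖s‖ < s0 := by
      have := Metric.ball_mem_nhds (0:ℂ) hs0
      filter_upwards [this] with s hs
      simpa using hs
    exact this.and h3
  have himg0 := image_mem_map (m := Z) hset
  rw [hmap] at himg0
  have himg : ∀ᶠ z : ℂ in 𝓝 0, z ∈ Z '' {s : ℂ | ‖s‖ < s0 ∧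
      Z s * f.derivative.eval (Z s) = s * f.eval (Z s)} := himg0
  have hfe : ∀ᶠ z : ℂ in 𝓝 0, f.eval z ≠ 0 := by
    refine f.continuous.continuousAt.eventually_ne ?_
    rwa [← coeff_zero_eq_eval_zero]
  obtain ⟨R, hR, hball⟩ := Metric.eventually_nhds_iff_ball.1 (himg.and hfe)
  refine ⟨R, hR, fun r hr hrR => ?_⟩
  obtain ⟨ζ, hζ, hmax, -⟩ := exists_max f hr.le
  obtain ⟨⟨s, ⟨hs1, hs2⟩, hs3⟩, hfζ⟩ := hball ζ (by simpa [hζ] using hrR)
  rw [hs3] at hs2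
  obtain ⟨him, hre⟩ := step1 f hr hζ (fun z hz => by
    rw [← hmax]; exact le_MM_ball f hr hz) hfζ hs2
  have hs : s = (s.re : ℂ) := Complex.ext rfl (by simpa using him)
  have hne : s.re ≠ 0 := by
    intro h0
    rw [h0] at hs
    rw [hs, Complex.ofReal_zero, h2] at hs3
    rw [← hs3, norm_zero] at hζ
    linarith
  have hpos : 0 < s.re := lt_of_le_of_ne hre (Ne.symm hne)
  refine ⟨s.re, hpos, ?_, ?_, ?_⟩
  · rw [hs, Complex.norm_real, Real.norm_of_nonneg hre] at hs1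
    exact hs1
  · rw [← hs, hs3, hζ]
  · rw [← hs, hs3, hmax]

/-- the square of the modulus on the positive axis -/
noncomputable def uu (Z : ℂ → ℂ) (s : ℝ) : ℝ := ‖Z s‖ ^ 2

lemma good (hf0 : f.coeff 0 ≠ 0) (hZ : IsInv f Z) : ∃ s0 : ℝ, 0 < s0 ∧ ∀ s : ℝ, 0 < s → s < s0 →
    AnalyticAt ℂ Z s ∧ Z s ≠ 0 ∧ f.eval (Z s) ≠ 0 ∧
    Z s * f.derivative.eval (Z s) = s * f.eval (Z s) ∧
    0 < ((starRingEnd ℂ) (Z s) * deriv Z s).re := by
  have hne := deriv_Z_ne hf0 hZ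
  obtain ⟨h1, h2, h3⟩ := hZ
  have hd : HasDerivAt Z (deriv Z 0) 0 := h1.differentiableAt.hasDerivAt
  have hsl := hd.tendsto_slope
  have hdc : Tendsto (deriv Z) (𝓝[≠] 0) (𝓝 (deriv Z 0)) :=
    h1.deriv.continuousAt.tendsto.mono_left nhdsWithin_le_nhds
  have hK : Tendsto (fun s => ((starRingEnd ℂ) (slope Z 0 s) * deriv Z s).re) (𝓝[≠] 0)
      (𝓝 ((starRingEnd ℂ) (deriv Z 0) * deriv Z 0).re) :=
    (Complex.continuous_re.tendsto _).comp
      (((Complex.continuous_conj.tendsto _).comp hsl).mul hdc)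
  have hpos : 0 < ((starRingEnd ℂ) (deriv Z 0) * deriv Z 0).re := by
    rw [mul_comm, Complex.mul_conj, Complex.ofReal_re]
    exact Complex.normSq_pos.2 hne
  have hfe : ∀ᶠ s : ℂ in 𝓝 0, f.eval (Z s) ≠ 0 := by
    refine (f.continuous.continuousAt.comp h1.continuousAt).eventually_ne ?_
    show f.eval (Z 0) ≠ 0
    rwa [h2, ← coeff_zero_eq_eval_zero]
  have hall := ((hK.eventually (lt_mem_nhds hpos)).and
    (((h1.eventually_analyticAt.and hfe).and h3).filter_mono nhdsWithin_le_nhds))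
  rw [eventually_nhdsWithin_iff] at hall
  obtain ⟨s0, hs0, hball⟩ := Metric.eventually_nhds_iff_ball.1 hall
  refine ⟨s0, hs0, fun s hs1 hs2 => ?_⟩
  have hsne : (s : ℂ) ∈ ({0}ᶜ : Set ℂ) := by
    simp only [Set.mem_compl_iff, Set.mem_singleton_iff]
    exact_mod_cast hs1.ne'
  obtain ⟨k1, ⟨k2, k3⟩, k4⟩ := hball (s : ℂ) (by
    rw [mem_ball_zero_iff, Complex.norm_real, Real.norm_of_nonneg hs1.le]; exact hs2) hsne
  have e1 : Z s = s * slope Z 0 (s : ℂ) := by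
    rw [slope_def_field, h2, sub_zero, sub_zero]
    have : (s : ℂ) ≠ 0 := hsne
    field_simp
  have hsl0 : slope Z 0 (s : ℂ) ≠ 0 := by
    intro h0
    rw [h0] at k1
    simp at k1
  refine ⟨k2, ?_, k3, k4, ?_⟩
  · rw [e1]
    exact mul_ne_zero hsne hsl0
  · rw [e1, map_mul, Complex.conj_ofReal, mul_assoc, Complex.re_ofReal_mul]
    exact mul_pos hs1 k1

lemma uu_deriv {s : ℝ} (h : AnalyticAt ℂ Z s) :
    HasDerivAt (uu Z) (2 * ((starRingEnd ℂ) (Z s) * deriv Z s).re) s := by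
  have h1 := (h.differentiableAt.hasDerivAt.comp_ofReal).norm_sq
  rw [inner_eq] at h1
  exact h1

lemma uu_strict {s : ℝ} (h : AnalyticAt ℂ Z s) :
    HasStrictDerivAt (uu Z) (2 * ((starRingEnd ℂ) (Z s) * deriv Z s).re) s := by
  have h1 : ContDiffAt ℝ 1 (fun t : ℝ => Z t) s := by
    have h2 : ContDiffAt ℝ 1 Z (s : ℂ) := (h.contDiffAt (n := 1)).restrict_scalars ℝ
    exact h2.comp s Complex.ofRealCLM.contDiff.contDiffAt
  have h3 : ContDiffAt ℝ 1 (uu Z) s := h1.norm_sq ℝ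
  exact h3.hasStrictDerivAt' (uu_deriv h) (by simp)

lemma ff_deriv {s : ℝ} (h : AnalyticAt ℂ Z s) (hz : Z s ≠ 0)
    (he : Z s * f.derivative.eval (Z s) = s * f.eval (Z s)) :
    HasDerivAt (fun t : ℝ => ‖f.eval (Z t)‖ ^ 2)
      (s * ‖f.eval (Z s)‖ ^ 2 / ‖Z s‖ ^ 2 * (2 * ((starRingEnd ℂ) (Z s) * deriv Z s).re)) s := by
  have h0 := h.differentiableAt.hasDerivAt.comp_ofReal
  have h1' := (f.hasDerivAt (Z s)).comp s h0
  have h1 : HasDerivAt (fun t : ℝ => f.eval (Z t)) (f.derivative.eval (Z s) * deriv Z s) s := h1'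
  have h2 := h1.norm_sq
  rw [inner_eq] at h2
  convert h2 using 1
  have hzn : ‖Z s‖ ^ 2 ≠ 0 := by positivity
  have h3 : (starRingEnd ℂ) (Z s) * Z s = ((‖Z s‖ ^ 2 : ℝ) : ℂ) := by
    rw [mul_comm, Complex.mul_conj, Complex.normSq_eq_norm_sq]
  have h4 : (starRingEnd ℂ) (f.eval (Z s)) * f.eval (Z s) = ((‖f.eval (Z s)‖ ^ 2 : ℝ) : ℂ) := by
    rw [mul_comm, Complex.mul_conj, Complex.normSq_eq_norm_sq]
  have h5 : (starRingEnd ℂ) (f.eval (Z s)) * (f.derivative.eval (Z s) * deriv Z s) =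
      ((s * ‖f.eval (Z s)‖ ^ 2 / ‖Z s‖ ^ 2 : ℝ) : ℂ) * ((starRingEnd ℂ) (Z s) * deriv Z s) := by
    have hzc : ((‖Z s‖ ^ 2 : ℝ) : ℂ) ≠ 0 := by exact_mod_cast hzn
    have h6 : ((s * ‖f.eval (Z s)‖ ^ 2 / ‖Z s‖ ^ 2 : ℝ) : ℂ) =
        s * ((‖f.eval (Z s)‖ ^ 2 : ℝ) : ℂ) / ((‖Z s‖ ^ 2 : ℝ) : ℂ) := by push_cast; ring
    rw [h6, div_mul_eq_mul_div, eq_div_iff hzc, ← h3, ← h4]
    linear_combination (starRingEnd ℂ) (f.eval (Z s)) * deriv Z s * (starRingEnd ℂ) (Z s) * he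
  rw [h5, Complex.re_ofReal_mul]
  ring

/-- the derivative of the squared maximum modulus as a function of `r²` -/
lemma key (hf0 : f.coeff 0 ≠ 0) (hZ : IsInv f Z) : ∃ s1 : ℝ, 0 < s1 ∧ ∀ s : ℝ, 0 < s → s < s1 →
    0 < ‖Z s‖ ∧ 0 < MM f ‖Z s‖ ∧
    HasDerivAt (fun x : ℝ => MM f (Real.sqrt x) ^ 2) (s * MM f ‖Z s‖ ^ 2 / ‖Z s‖ ^ 2)
      (‖Z s‖ ^ 2) := by
  obtain ⟨s0, hs0, hgood⟩ := good hf0 hZ
  obtain ⟨R, hR, hatt⟩ := attained hf0 hZ hs0
  have hmono : StrictMonoOn (uu Z) (Set.Ioo 0 s0) := by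
    refine strictMonoOn_of_deriv_pos (convex_Ioo _ _) ?_ ?_
    · exact fun s hs => (uu_deriv (hgood s hs.1 hs.2).1).continuousAt.continuousWithinAt
    · intro s hs
      rw [interior_Ioo] at hs
      rw [(uu_deriv (hgood s hs.1 hs.2).1).deriv]
      have := (hgood s hs.1 hs.2).2.2.2.2
      linarith
  have hcont : ∀ᶠ s : ℂ in 𝓝 0, ‖Z s‖ < R := by
    have h1 := hZ.1.continuousAt.norm
    have h2 : ‖Z 0‖ < R := by rw [hZ.2.1, norm_zero]; exact hR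
    exact h1.eventually (gt_mem_nhds h2)
  obtain ⟨s2, hs2, hball⟩ := Metric.eventually_nhds_iff_ball.1 hcont
  set s1 : ℝ := min s0 s2 with hs1
  have hMM : ∀ s : ℝ, 0 < s → s < s1 → MM f ‖Z s‖ = ‖f.eval (Z s)‖ := by
    intro s h1 h2
    have hg := hgood s h1 (h2.trans_le (min_le_left _ _))
    obtain ⟨σ, k1, k2, k3, k4⟩ := hatt ‖Z s‖ (norm_pos_iff.2 hg.2.1) (hball _ (by
      rw [mem_ball_zero_iff, Complex.norm_real, Real.norm_of_nonneg h1.le]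
      exact h2.trans_le (min_le_right _ _)))
    have h3 : uu Z σ = uu Z s := by unfold uu; rw [k3]
    have h4 : σ = s := hmono.injOn ⟨k1, k2⟩ ⟨h1, h2.trans_le (min_le_left _ _)⟩ h3
    rw [k4, h4]
  refine ⟨s1, lt_min hs0 hs2, fun s h1 h2 => ?_⟩
  obtain ⟨g1, g2, g3, g4, g5⟩ := hgood s h1 (h2.trans_le (min_le_left _ _))
  refine ⟨norm_pos_iff.2 g2, by rw [hMM s h1 h2]; exact norm_pos_iff.2 g3, ?_⟩
  have hu' : 2 * ((starRingEnd ℂ) (Z s) * deriv Z s).re ≠ 0 := by positivity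
  have hst := uu_strict g1
  set v : ℝ → ℝ := hst.localInverse _ _ _ hu' with hv
  have hv1 : HasStrictDerivAt v (2 * ((starRingEnd ℂ) (Z s) * deriv Z s).re)⁻¹ (uu Z s) :=
    hst.to_localInverse hu'
  have hv2 : ∀ᶠ x in 𝓝 (uu Z s), uu Z (v x) = x := hst.eventually_right_inverse hu'
  have hv3 : v (uu Z s) = s := HasStrictFDerivAt.localInverse_apply_image ..
  have hv4 : ∀ᶠ x in 𝓝 (uu Z s), v x ∈ Set.Ioo 0 s1 := by
    refine hv1.hasDerivAt.continuousAt.eventually_mem ?_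
    rw [hv3]
    exact Ioo_mem_nhds h1 h2
  have hF := ff_deriv (f := f) g1 g2 g4
  have hF' : HasDerivAt (fun t : ℝ => ‖f.eval (Z t)‖ ^ 2)
      (s * ‖f.eval (Z s)‖ ^ 2 / ‖Z s‖ ^ 2 * (2 * ((starRingEnd ℂ) (Z s) * deriv Z s).re))
      (v (uu Z s)) := by rw [hv3]; exact hF
  have hcomp := hF'.comp (uu Z s) hv1.hasDerivAt
  have heq : (fun x : ℝ => MM f (Real.sqrt x) ^ 2) =ᶠ[𝓝 (uu Z s)]
      ((fun t : ℝ => ‖f.eval (Z t)‖ ^ 2) ∘ v) := by
    filter_upwards [hv2, hv4] with x hx1 hx2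
    have h3 : Real.sqrt x = ‖Z (v x)‖ := by
      rw [← hx1]
      unfold uu
      rw [Real.sqrt_sq (norm_nonneg _)]
      rw [show ‖Z (v x)‖ ^ 2 = x from hx1]
    simp only [Function.comp]
    rw [h3, hMM _ hx2.1 hx2.2]
  have hfin := hcomp.congr_of_eventuallyEq heq
  have hval : s * ‖f.eval (Z s)‖ ^ 2 / ‖Z s‖ ^ 2 *
      (2 * ((starRingEnd ℂ) (Z s) * deriv Z s).re) *
      (2 * ((starRingEnd ℂ) (Z s) * deriv Z s).re)⁻¹ = s * MM f ‖Z s‖ ^ 2 / ‖Z s‖ ^ 2 := by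
    rw [mul_assoc, mul_inv_cancel₀ hu', mul_one, hMM s h1 h2]
  rw [hval] at hfin
  exact hfin

end inv

theorem germ : StGerm := by
  intro f g hf0 hf1 hg0 hg1 ε hε hMM Z W hZ hW
  obtain ⟨s1, hs1, hkf⟩ := key hf0 hZ
  obtain ⟨t1, ht1, hkg⟩ := key hg0 hW
  obtain ⟨R, hR, hatt⟩ := attained hg0 hW ht1
  have hcont : ∀ᶠ s : ℂ in 𝓝 0, ‖Z s‖ < min R ε := by
    have h1 := hZ.1.continuousAt.norm
    have h2 : ‖Z 0‖ < min R ε := by rw [hZ.2.1, norm_zero]; exact lt_min hR hε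
    exact h1.eventually (gt_mem_nhds h2)
  obtain ⟨s2, hs2, hball⟩ := Metric.eventually_nhds_iff_ball.1 hcont
  refine ⟨min s1 s2, lt_min hs1 hs2, fun s h1 h2 => ?_⟩
  obtain ⟨k1, k2, k3⟩ := hkf s h1 (h2.trans_le (min_le_left _ _))
  have hsm : ‖Z s‖ < min R ε := hball _ (by
    rw [mem_ball_zero_iff, Complex.norm_real, Real.norm_of_nonneg h1.le]
    exact h2.trans_le (min_le_right _ _))
  obtain ⟨σ, m1, m2, m3, -⟩ := hatt ‖Z s‖ k1 (hsm.trans_le (min_le_left _ _))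
  obtain ⟨l1, l2, l3⟩ := hkg σ m1 m2
  rw [m3] at l3
  have heq : (fun x : ℝ => MM g (Real.sqrt x) ^ 2) =ᶠ[𝓝 (‖Z s‖ ^ 2)]
      (fun x : ℝ => MM f (Real.sqrt x) ^ 2) := by
    have hpos : 0 < ‖Z s‖ ^ 2 := by positivity
    have hlt : ‖Z s‖ ^ 2 < ε ^ 2 :=
      pow_lt_pow_left₀ (hsm.trans_le (min_le_right _ _)) (norm_nonneg _) (by norm_num)
    filter_upwards [Ioo_mem_nhds hpos hlt] with x hx
    rw [hMM (Real.sqrt x) (Real.sqrt_pos.2 hx.1) ((Real.sqrt_lt' hε).2 hx.2)]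
  have h3 := (k3.congr_of_eventuallyEq heq).unique l3
  have h4 : MM g ‖Z s‖ = MM f ‖Z s‖ := (hMM _ k1 (hsm.trans_le (min_le_right _ _))).symm
  rw [h4] at h3
  have h5 : 0 < MM f ‖Z s‖ ^ 2 / ‖Z s‖ ^ 2 := by positivity
  have h6 : s = σ := by
    have h7 : s * (MM f ‖Z s‖ ^ 2 / ‖Z s‖ ^ 2) = σ * (MM f ‖Z s‖ ^ 2 / ‖Z s‖ ^ 2) := by
      rw [← mul_div_assoc, ← mul_div_assoc]
      exact h3
    exact mul_right_cancel₀ h5.ne' h7
  rw [← m3, h6]

end Pool.Agent.Y308.BL
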